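import Pool.Agent.Helper65.CS.Goals

/-!
# Search for satisfying assignments: the chosen positions (packet CS-PSL)
-/

namespace Pool.Agent.Helper33.CS

open Pool.Agent.Helper78.DT Pool.Agent.Helper51.ZP Pool.Agent.Helper65.CS
open scoped Classical

theorem bits_spec (g : ℕ → Bool) : ∀ b : ℕ,
    (∑ i ∈ Finset.range b, if g i then 2 ^ i else 0) < 2 ^ b ∧
      ∀ i < b, (∑ i ∈ Finset.range b, if g i then 2 ^ i else 0).testBit i = g i
  | 0 => by simp
  | b + 1 => by
    obtain ⟨h1, h2⟩ := bits_spec g b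
    rw [Finset.sum_range_succ]
    cases hg : g b with
    | true =>
      simp only [if_true]
      refine ⟨by rw [pow_succ]; omega, fun i hi => ?_⟩
      rw [add_comm]
      rcases Nat.lt_succ_iff_lt_or_eq.1 hi with h | h
      · rw [Nat.testBit_two_pow_add_gt h]
        exact h2 i h
      · subst h
        rw [Nat.testBit_two_pow_add_eq, Nat.testBit_lt_two_pow h1, hg]
        rfl
    | false =>
      simp only [Bool.false_eq_true, if_false, add_zero]
      refine ⟨by rw [pow_succ]; omega, fun i hi => ?_⟩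
      rcases Nat.lt_succ_iff_lt_or_eq.1 hi with h | h
      · exact h2 i h
      · subst h
        rw [Nat.testBit_lt_two_pow h1, hg]

theorem nb_lt (b : ℕ) (r : ℕ → Bool) (j : ℕ) : nb b r j < 2 ^ b :=
  (bits_spec (fun i => r (j * b + i)) b).1

theorem nb_testBit (b : ℕ) (r : ℕ → Bool) (j i : ℕ) (hi : i < b) :
    (nb b r j).testBit i = r (j * b + i) :=
  (bits_spec (fun i => r (j * b + i)) b).2 i hi

theorem pk_div (b : ℕ) (r : ℕ → Bool) (j : ℕ) : pk b r j / 2 ^ b = j := by
  unfold pk
  rw [add_comm, Nat.add_mul_div_right _ _ (by positivity), Nat.div_eq_of_lt (nb_lt b r j),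
    zero_add]

theorem pk_mod (b : ℕ) (r : ℕ → Bool) (j : ℕ) : pk b r j % 2 ^ b = nb b r j := by
  unfold pk
  rw [add_comm, Nat.add_mul_mod_self_right, Nat.mod_eq_of_lt (nb_lt b r j)]

/-- **PSL.** -/
theorem psl (hcyl : CylStmt) : PslStmt := by
  intro b q Ω _ _ ε Z hε hB P
  have hR : (0 : ℝ) ≤ (1 / 2 ^ b) ^ P.card := by positivity
  by_cases h1 : (∀ p ∈ P, p / 2 ^ b < q) ∧ ∀ p ∈ P, ∀ p' ∈ P, p / 2 ^ b = p' / 2 ^ b → p = p'
  · obtain ⟨hlt, hinj⟩ := h1
    let I : Finset (Fin (b * q)) := Finset.univ.filter fun x => ∃ p ∈ P, p / 2 ^ b = (x : ℕ) / b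
    let f : ℕ → ℕ := fun j => if h : ∃ p ∈ P, p / 2 ^ b = j then h.choose else 0
    let c : Fin (b * q) → Bool := fun x => (f ((x : ℕ) / b) % 2 ^ b).testBit ((x : ℕ) % b)
    have hc := hcyl (b * q) Ω ε Z hε hB I c
    have hcard : b * P.card ≤ I.card := by
      have hle : (P ×ˢ Finset.range b).card ≤ (I.map Fin.valEmbedding).card := by
        refine Finset.card_le_card_of_injOn (fun x => x.1 / 2 ^ b * b + x.2) ?_ ?_
        · intro x hx
          rw [Finset.mem_coe, Finset.mem_product, Finset.mem_range] at hx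
          have hb : 0 < b := by omega
          have hq := hlt _ hx.1
          have hlt2 : x.1 / 2 ^ b * b + x.2 < b * q := by
            calc x.1 / 2 ^ b * b + x.2 < x.1 / 2 ^ b * b + b := by omega
              _ = (x.1 / 2 ^ b + 1) * b := by ring
              _ ≤ q * b := Nat.mul_le_mul_right _ hq
              _ = b * q := mul_comm _ _
          rw [Finset.mem_coe, Finset.mem_map]
          refine ⟨⟨_, hlt2⟩, ?_, rfl⟩
          rw [Finset.mem_filter]
          refine ⟨Finset.mem_univ _, x.1, hx.1, ?_⟩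
          show x.1 / 2 ^ b = (x.1 / 2 ^ b * b + x.2) / b
          rw [add_comm, Nat.add_mul_div_right _ _ hb, Nat.div_eq_of_lt hx.2, zero_add]
        · intro x hx y hy hxy
          rw [Finset.mem_coe, Finset.mem_product, Finset.mem_range] at hx hy
          have hb : 0 < b := by omega
          have hxy' : x.1 / 2 ^ b * b + x.2 = y.1 / 2 ^ b * b + y.2 := hxy
          have e1 : x.1 / 2 ^ b = y.1 / 2 ^ b := by
            have this : (x.1 / 2 ^ b * b + x.2) / b = (y.1 / 2 ^ b * b + y.2) / b := by rw [hxy']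
            rwa [add_comm, Nat.add_mul_div_right _ _ hb, Nat.div_eq_of_lt hx.2, zero_add,
              add_comm, Nat.add_mul_div_right _ _ hb, Nat.div_eq_of_lt hy.2, zero_add] at this
          have e2 := hinj _ hx.1 _ hy.1 e1
          rw [e1] at hxy'
          exact Prod.ext e2 (by omega)
      rw [Finset.card_product, Finset.card_range, Finset.card_map] at hle
      rw [mul_comm]
      exact hle
    have hmono : pr (fun ω => ∀ p ∈ P, ∃ j < q, pk b (bt (Z ω)) j = p) ≤
        pr (fun ω => ∀ i ∈ I, z2b (Z ω i) = c i) := by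
      refine pr_mono fun ω h i hi => ?_
      rw [Finset.mem_filter] at hi
      have hi2 := hi.2
      have hfs : f ((i : ℕ) / b) ∈ P ∧ f ((i : ℕ) / b) / 2 ^ b = (i : ℕ) / b := by
        show (if h : ∃ p ∈ P, p / 2 ^ b = (i : ℕ) / b then h.choose else 0) ∈ P ∧
          (if h : ∃ p ∈ P, p / 2 ^ b = (i : ℕ) / b then h.choose else 0) / 2 ^ b = (i : ℕ) / b
        rw [dif_pos hi2]
        exact hi2.choose_spec
      obtain ⟨j, hj, hp⟩ := h _ hfs.1
      have ej : j = (i : ℕ) / b := by
        rw [← hfs.2, ← hp, pk_div]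
      have hb : 0 < b := by
        rcases Nat.eq_zero_or_pos b with h0 | h0
        · subst h0
          have := i.2
          simp at this
        · exact h0
      show z2b (Z ω i) = (f ((i : ℕ) / b) % 2 ^ b).testBit ((i : ℕ) % b)
      rw [← hp, pk_mod, nb_testBit _ _ _ _ (Nat.mod_lt _ hb), ej]
      have e : (i : ℕ) / b * b + (i : ℕ) % b = i := Nat.div_add_mod' _ _
      rw [e]
      unfold bt
      rw [dif_pos i.2]
    have hpow : (1 / 2 : ℝ) ^ I.card ≤ (1 / 2 ^ b) ^ P.card := by
      have : ((1 : ℝ) / 2 ^ b) ^ P.card = (1 / 2) ^ (b * P.card) := by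
        rw [pow_mul]
        congr 1
        rw [div_pow, one_pow]
      rw [this]
      exact pow_le_pow_of_le_one (by norm_num) (by norm_num) hcard
    have := (abs_le.1 hc).2
    linarith
  · have hz : pr (fun ω => ∀ p ∈ P, ∃ j < q, pk b (bt (Z ω)) j = p) ≤
        pr (fun _ : Ω => False) := by
      refine pr_mono fun ω h => h1 ⟨fun p hp => ?_, fun p hp p' hp' e => ?_⟩
      · obtain ⟨j, hj, e⟩ := h p hp
        rw [← e, pk_div]
        exact hj
      · obtain ⟨j, hj, e1⟩ := h p hp
        obtain ⟨j', hj', e2⟩ := h p' hp'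
        rw [← e1, ← e2, pk_div, pk_div] at e
        rw [← e1, ← e2, e]
    have h0 : pr (fun _ : Ω => False) = 0 := by
      rw [pr_eq_av]
      simp only [if_false]
      exact av_const 0
    linarith

end Pool.Agent.Helper33.CS
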